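import Pool.Agent.N343.AS.Stm

/-!
# SRR: the sum range is everything (helper828)
-/

set_option autoImplicit false

open Filter Topology Finset

namespace Pool.Agent.N828.AS.SRR

open Pool.Agent.N343.AS

lemma sgn {e u : ℕ → ℝ} (he : ∀ m, e m = 1 ∨ e m = -1) (hu : Tendsto u atTop (𝓝 0)) :
    Tendsto (fun m => e m * u m) atTop (𝓝 0) := by
  rw [tendsto_zero_iff_abs_tendsto_zero] at hu ⊢
  refine hu.congr fun m => ?_
  simp only [Function.comp_apply]
  rcases he m with h | h <;> rw [h] <;> simp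

theorem main (_hR : S_RIE) (hM : S_MER) (hS : S_SPL) (hC : S_CNT) : S_SRR := by
  intro n c X A H x hx
  obtain ⟨g, lp, lv, ep, ev, h1, h2, h3, h4, h5, hep, hev, cp1, cp2, cv1, cv2⟩ :=
    hS n c X A H x hx
  have hX0 : Tendsto X atTop (𝓝 0) := by
    refine squeeze_zero (fun N => (H.Xpos N).le) H.XY ?_
    exact tendsto_pow_atTop_nhds_zero_of_lt_one (by norm_num) (by norm_num)
  have hY0 : Tendsto (fun N : ℕ => ((1 / 2 : ℝ)) ^ N) atTop (𝓝 0) :=
    tendsto_pow_atTop_nhds_zero_of_lt_one (by norm_num) (by norm_num)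
  have hX1 : Tendsto (fun N => X (N + 1)) atTop (𝓝 0) := hX0.comp (tendsto_add_atTop_nat 1)
  have hY1 : Tendsto (fun N : ℕ => ((1 / 2 : ℝ)) ^ (N + 1)) atTop (𝓝 0) :=
    hY0.comp (tendsto_add_atTop_nat 1)
  have a1 := (hC lp ep A X hep cp1 cp2 H.Xpos hX0).2.1
  have a2 := (hC lp ep A (fun N => (1 / 2) ^ N) hep cp1 cp2 (fun N => by positivity) hY0).2.1
  have a3 := (hC lp ep A (fun N => X (N + 1)) hep cp1 cp2 (fun N => H.Xpos _) hX1).2.1
  have a4 := (hC lp ep A (fun N => (1 / 2) ^ (N + 1)) hep cp1 cp2 (fun N => by positivity) hY1).2.1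
  have hnep : ∀ m, -ep m = 1 ∨ -ep m = -1 := fun m => by
    rcases hep m with h | h <;> rw [h] <;> simp
  refine hM x g (fun m => ep m * (X (lp m) - 2 * X (lp m + 1))) h1 ?_ ?_ ?_ ?_ ?_
  · intro k
    fin_cases k
    · simp only [Fin.zero_eta, h2]
      exact (sgn hep a1).prodMk_nhds (sgn hep a2)
    · simp only [Fin.mk_one, h3]
      exact (sgn hnep a3).prodMk_nhds (sgn hnep a4)
    · simp only [Fin.reduceFinMk, h4]
      exact (sgn hnep a3).prodMk_nhds (sgn hnep a4)
  · intro m
    rw [Fin.sum_univ_three, h2, h3, h4]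
    ext
    · simp
      ring
    · simp
      ring
  · have hw : ∀ N, X N / 2 ≤ X N - 2 * X (N + 1) := fun N => by
      have := H.Xdec N
      linarith
    refine (hC lp ep A (fun N => X N - 2 * X (N + 1)) hep cp1 cp2 (fun N => ?_) ?_).1 fun N => ?_
    · have := hw N
      have := H.Xpos N
      linarith
    · simpa using hX0.sub (hX1.const_mul 2)
    · have h6 := H.AX N
      have h7 := mul_le_mul_of_nonneg_left (hw N) (Nat.cast_nonneg (α := ℝ) (A N))
      have h8 : (A N : ℝ) * (X N / 2) = (A N : ℝ) * X N / 2 := by ring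
      linarith
  · have h6 := (hC lv ev (fun N => 2 ^ N) X hev cv1 cv2 H.Xpos hX0).2.2 (by
      refine H.Xsum.congr fun N => ?_
      push_cast
      ring)
    refine h6.congr fun m => ?_
    rw [h5, Real.norm_eq_abs]
  · have h6 := (hC lv ev (fun N => 2 ^ N) (fun N => (1 / 2) ^ N) hev cv1 cv2
      (fun N => by positivity) hY0).1 (fun N => by
        push_cast
        rw [← mul_pow]
        norm_num)
    simpa only [h5] using h6

end Pool.Agent.N828.AS.SRR
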